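import Mathlib

set_option autoImplicit false

namespace Pool.Agent.Results.MP_c8d5ab_co.PrescribedLiminf

open Filter

variable {A : Type*}

/-- The set of positions at which the word `v` occurs (as a block of consecutive letters) in the
word `w`. -/
def occ (v w : List A) : Set ℕ :=
  {i | i + v.length ≤ w.length ∧ (w.drop i).take v.length = v}

/-- A finite word `w` is closed if it has length at most one, or if there is a word `v ≠ w` that
occurs in `w` exactly twice and is both an initial segment and a final segment of `w`. -/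
def IsClosedWord (w : List A) : Prop :=
  w.length ≤ 1 ∨ ∃ v : List A, v ≠ w ∧ v <+: w ∧ v <:+ w ∧ (occ v w).ncard = 2

/-- The factor `x i, x (i+1), …, x (i+n-1)` of the infinite word `x`. -/
def block (x : ℕ → A) (i n : ℕ) : List A := (List.range n).map fun t => x (i + t)

/-- The set of closed factors of length `n` of the infinite word `x`. -/
def closedFactors (x : ℕ → A) (n : ℕ) : Set (List A) :=
  {w | (∃ i, w = block x i n) ∧ IsClosedWord w}

/-- The closed complexity: the number of distinct closed factors of length `n`. -/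
noncomputable def closedComplexity (x : ℕ → A) (n : ℕ) : ℕ := (closedFactors x n).ncard

/-- `x` is ultimately periodic. -/
def UltimatelyPeriodic (x : ℕ → A) : Prop :=
  ∃ p N : ℕ, 1 ≤ p ∧ ∀ n, N ≤ n → x (n + p) = x n

/-- The morphism of the free monoid that extends `φ : A → A*`. -/
def mor (φ : A → List A) (w : List A) : List A := w.flatMap φ

/-- `x` is pure morphic: there are a morphism `φ` and a letter `a` such that `φ(a)` begins with
`a`, the lengths of the iterates `φ^m(a)` tend to infinity, and every `φ^m(a)` is an initial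
segment of `x` (that is, `x = φ^ω(a)`). -/
def IsPureMorphic (x : ℕ → A) : Prop :=
  ∃ (φ : A → List A) (a : A), [a] <+: φ a ∧
    Tendsto (fun m : ℕ => ((mor φ)^[m] [a]).length) atTop atTop ∧
    ∀ m : ℕ, (mor φ)^[m] [a] = block x 0 ((mor φ)^[m] [a]).length

@[simp] lemma block_length (x : ℕ → A) (i n : ℕ) : (block x i n).length = n := by
  simp [block]

lemma block_getElem (x : ℕ → A) (i n t : ℕ) (h : t < (block x i n).length) :
    (block x i n)[t] = x (i + t) := by
  simp [block]

lemma block_eq_iff (x : ℕ → A) (i j n : ℕ) :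
    block x i n = block x j n ↔ ∀ t < n, x (i + t) = x (j + t) := by
  constructor
  · intro h t ht
    have h1 : (block x i n)[t]? = (block x j n)[t]? := by rw [h]
    simpa [block, ht] using h1
  · intro h
    apply List.ext_getElem
    · simp
    · intro t h1 h2
      rw [block_getElem, block_getElem]
      exact h t (by simpa using h1)

lemma take_drop_block (x : ℕ → A) (i n s m : ℕ) (h : s + m ≤ n) :
    ((block x i n).drop s).take m = block x (i + s) m := by
  apply List.ext_getElem
  · simp; omega
  · intro t h1 h2
    simp [block, add_assoc]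

/-- Position form of closedness, for factors of length at least two. -/
lemma closed_block {x : ℕ → A} {i n : ℕ} (hn : 2 ≤ n) (h : IsClosedWord (block x i n)) :
    ∃ m, 1 ≤ m ∧ m < n ∧ (∀ t < m, x (i + t) = x (i + (n - m) + t)) ∧
      ∀ s, 0 < s → s < n - m → ∃ t < m, x (i + s + t) ≠ x (i + t) := by
  rcases h with h | ⟨v, hv, hp, hs, hc⟩
  · simp at h; omega
  · obtain ⟨u, hu⟩ := hp
    obtain ⟨u', hu'⟩ := hs
    have hlen : v.length + u.length = n := by
      have := congrArg List.length hu; simpa using this
    have hlen' : u'.length + v.length = n := by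
      have := congrArg List.length hu'; simpa using this
    have hvlt : v.length < n := by
      rcases Nat.lt_or_ge v.length n with h | h
      · exact h
      · exfalso
        have : u.length = 0 := by omega
        have : u = [] := List.length_eq_zero_iff.mp this
        subst this
        apply hv
        simpa using hu
    have e0 : v = block x i v.length := by
      have h1 : (block x i n).take v.length = v := by rw [← hu]; simp
      have h2 := take_drop_block x i n 0 v.length (by omega)
      simp at h2
      rw [h1] at h2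
      exact h2
    have e1 : v = block x (i + (n - v.length)) v.length := by
      have h2 := take_drop_block x i n (n - v.length) v.length (by omega)
      have h1 : ((block x i n).drop (n - v.length)).take v.length = v := by
        have : n - v.length = u'.length := by omega
        rw [this, ← hu']
        simp
      rw [h1] at h2
      exact h2
    have mem0 : 0 ∈ occ v (block x i n) := by
      refine ⟨by simp; omega, ?_⟩
      rw [take_drop_block x i n 0 v.length (by omega)]
      simpa using e0.symm
    have mem1 : n - v.length ∈ occ v (block x i n) := by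
      refine ⟨by simp; omega, ?_⟩
      rw [take_drop_block x i n _ v.length (by omega)]
      exact e1.symm
    have key : ∀ s ∈ occ v (block x i n), s = 0 ∨ s = n - v.length := by
      intro s hs'
      obtain ⟨p, q, hpq, hocc⟩ := Set.ncard_eq_two.mp hc
      rw [hocc] at mem0 mem1 hs'
      simp at mem0 mem1 hs'
      omega
    have hm : 1 ≤ v.length := by
      rcases Nat.eq_zero_or_pos v.length with h0 | h0
      · exfalso
        have hv0 : v = [] := List.length_eq_zero_iff.mp h0
        have := key 1 ⟨by simp [h0]; omega, by simp [hv0]⟩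
        omega
      · exact h0
    refine ⟨v.length, hm, hvlt, ?_, ?_⟩
    · rw [← block_eq_iff, ← e0, ← e1]
    · intro s h0 h1
      by_contra hcon
      push Not at hcon
      have : block x (i + s) v.length = block x i v.length := (block_eq_iff _ _ _ _).mpr hcon
      have hmem : s ∈ occ v (block x i n) := by
        refine ⟨by simp; omega, ?_⟩
        rw [take_drop_block x i n s v.length (by omega), this]
        exact e0.symm
      have := key s hmem
      omega

lemma closed_replicate (b : A) {n : ℕ} (hn : 2 ≤ n) : IsClosedWord (List.replicate n b) := by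
  right
  refine ⟨List.replicate (n - 1) b, ?_, ?_, ?_, ?_⟩
  · intro h
    have := congrArg List.length h
    simp at this
    omega
  · refine ⟨[b], ?_⟩
    rw [← List.replicate_succ']
    congr 1; omega
  · refine ⟨[b], ?_⟩
    show b :: List.replicate (n - 1) b = _
    rw [← List.replicate_succ]
    congr 1; omega
  · have : occ (List.replicate (n - 1) b) (List.replicate n b) = {0, 1} := by
      ext i
      simp only [occ, List.length_replicate, Set.mem_ofPred_eq, List.drop_replicate,
        List.take_replicate, Set.mem_insert_iff, Set.mem_singleton_iff]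
      constructor
      · rintro ⟨h, -⟩; omega
      · intro h
        refine ⟨by omega, ?_⟩
        congr 1; omega
    rw [this]
    exact Set.ncard_pair (by norm_num)



/-! ### The case `k = 0`: a paperfolding word on four letters -/

/-- The paperfolding sequence. -/
def pf (n : ℕ) : Bool :=
  if h : n = 0 then false
  else if n % 2 = 0 then decide ((n / 2) % 2 = 1) else pf (n / 2)
termination_by n
decreasing_by omega

lemma pf_even (n : ℕ) : pf (2 * n) = decide (n % 2 = 1) := by
  rw [pf]
  rcases Nat.eq_zero_or_pos n with h | h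
  · subst h; simp
  · have h1 : 2 * n ≠ 0 := by omega
    have h2 : 2 * n / 2 = n := by omega
    simp [h1, h2]

lemma pf_odd (n : ℕ) : pf (2 * n + 1) = pf n := by
  rw [pf]
  have h2 : (2 * n + 1) / 2 = n := by omega
  have h3 : (2 * n + 1) % 2 = 1 := by omega
  simp [h2, h3]

/-- The word on the alphabet `Bool × Bool`. -/
def pw (n : ℕ) : Bool × Bool := (decide (n % 2 = 1), pf n)

/-- The morphism `(s,t) ↦ (false,s)(true,t)` on four letters. -/
def pφ (u : Bool × Bool) : List (Bool × Bool) := [(false, u.1), (true, u.2)]

lemma pφ_pw (n : ℕ) : pφ (pw n) = [pw (2 * n), pw (2 * n + 1)] := by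
  simp [pφ, pw, pf_even, pf_odd]

lemma pw_iter (m : ℕ) : (mor pφ)^[m] [(false, false)] = block pw 0 (2 ^ m) := by
  induction m with
  | zero =>
    have h0 : pf 0 = false := by rw [pf]; simp
    simp [block, pw, h0]
  | succ m ih =>
    rw [Function.iterate_succ_apply', ih]
    have key : ∀ N, mor pφ (block pw 0 N) = block pw 0 (2 * N) := by
      intro N
      induction N with
      | zero => simp [mor, block]
      | succ N ihN =>
        have e1 : block pw 0 (N + 1) = block pw 0 N ++ [pw N] := by
          simp [block, List.range_succ]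
        have e2 : block pw 0 (2 * (N + 1)) = block pw 0 (2 * N) ++ [pw (2 * N), pw (2 * N + 1)] := by
          have : 2 * (N + 1) = 2 * N + 1 + 1 := by ring
          rw [this]
          simp [block, List.range_succ]
        rw [e1, e2, ← ihN]
        simp [mor, pφ_pw]
    rw [key]
    congr 1
    ring

lemma pw_pureMorphic : IsPureMorphic pw := by
  refine ⟨pφ, (false, false), ?_, ?_, ?_⟩
  · exact ⟨[(true, false)], rfl⟩
  · simp only [pw_iter, block_length]
    exact tendsto_pow_atTop_atTop_of_one_lt (by norm_num)
  · intro m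
    rw [pw_iter]
    simp

/-- The value of the paperfolding sequence at `n` is given by the odd part of `n + 1`. -/
lemma pf_odd_part (s u : ℕ) : pf (2 ^ s * (2 * u + 1) - 1) = decide (u % 2 = 1) := by
  induction s with
  | zero => simp [pf_even]
  | succ s ih =>
    have h : 2 ^ (s + 1) * (2 * u + 1) - 1 = 2 * (2 ^ s * (2 * u + 1) - 1) + 1 := by
      have : 0 < 2 ^ s * (2 * u + 1) := by positivity
      rw [pow_succ]
      have h2 : 2 ^ s * 2 * (2 * u + 1) = 2 * (2 ^ s * (2 * u + 1)) := by ring
      omega
    rw [h, pf_odd, ih]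

/-- Two occurrences of a factor of length at least `2^s` are at a distance divisible by
`2^(s+1)`. -/
lemma pw_return (s : ℕ) : ∀ i d : ℕ, (∀ t < 2 ^ s, pw (i + t) = pw (i + d + t)) → 2 ^ (s + 1) ∣ d := by
  induction s with
  | zero =>
    intro i d h
    have h0 := h 0 (by norm_num)
    simp only [pw, Prod.mk.injEq, decide_eq_decide, add_zero] at h0
    have := h0.1
    simp
    omega
  | succ s ih =>
    intro i d h
    obtain ⟨e, he⟩ := ih i d (fun t ht => h t (by rw [pow_succ]; omega))
    -- find the position with `n + 1 = 2^s (2u+1)`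
    obtain ⟨t, u, ht, htu⟩ : ∃ t u, t < 2 ^ (s + 1) ∧ i + t + 1 = 2 ^ s * (2 * u + 1) := by
      have hpos : 0 < 2 ^ (s + 1) := by positivity
      -- choose `t ≡ 2^s - (i+1)` modulo `2^(s+1)`
      let q := i / 2 ^ (s + 1)
      have hq : 2 ^ (s + 1) * q + i % 2 ^ (s + 1) = i := Nat.div_add_mod i _
      have hr : i % 2 ^ (s + 1) < 2 ^ (s + 1) := Nat.mod_lt _ hpos
      have hs : 0 < 2 ^ s := by positivity
      have h2 : 2 ^ (s + 1) = 2 * 2 ^ s := by rw [pow_succ]; ring
      rcases Nat.lt_or_ge (i % 2 ^ (s + 1)) (2 ^ s) with hlt | hge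
      · refine ⟨2 ^ s - 1 - i % 2 ^ (s + 1), q, by omega, ?_⟩
        have : 2 ^ s * (2 * q + 1) = 2 ^ (s + 1) * q + 2 ^ s := by rw [h2]; ring
        rw [this]
        omega
      · refine ⟨2 ^ (s + 1) + 2 ^ s - 1 - i % 2 ^ (s + 1), q + 1, by omega, ?_⟩
        have : 2 ^ s * (2 * (q + 1) + 1) = 2 ^ (s + 1) * q + 2 ^ (s + 1) + 2 ^ s := by rw [h2]; ring
        rw [this]
        omega
    have hh := h t ht
    simp only [pw, Prod.mk.injEq] at hh
    have h1 : i + t = 2 ^ s * (2 * u + 1) - 1 := by omega
    have h2 : i + d + t = 2 ^ s * (2 * (u + e) + 1) - 1 := by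
      have : 2 ^ s * (2 * (u + e) + 1) = 2 ^ s * (2 * u + 1) + 2 ^ (s + 1) * e := by
        rw [pow_succ]; ring
      omega
    have h3 := hh.2
    rw [h1, h2, pf_odd_part, pf_odd_part] at h3
    have h4 : (u % 2 = 1) ↔ ((u + e) % 2 = 1) := by simpa using h3
    have h5 : e % 2 = 0 := by omega
    obtain ⟨f, hf⟩ := Nat.dvd_of_mod_eq_zero h5
    refine ⟨f, ?_⟩
    rw [he, hf, pow_succ (2) (s + 1)]
    ring

lemma pw_aperiodic : ¬ UltimatelyPeriodic pw := by
  rintro ⟨p, N, hp, h⟩
  have h1 : 2 ^ (p + 1) ∣ p := by
    apply pw_return p N p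
    intro t _
    have := h (N + t) (by omega)
    rw [← this]
    congr 1
    ring
  have h2 := Nat.le_of_dvd hp h1
  have h3 : p < 2 ^ p := Nat.lt_two_pow_self
  have h4 : 2 ^ p ≤ 2 ^ (p + 1) := Nat.pow_le_pow_right (by norm_num) (by omega)
  omega

lemma pw_closed_zero (j : ℕ) (hj : 1 ≤ j) : closedComplexity pw (2 ^ j) = 0 := by
  have : closedFactors pw (2 ^ j) = ∅ := by
    rw [Set.eq_empty_iff_forall_notMem]
    rintro w ⟨⟨i, rfl⟩, hc⟩
    have h2 : 2 ≤ 2 ^ j := by
      calc 2 = 2 ^ 1 := by norm_num
        _ ≤ 2 ^ j := Nat.pow_le_pow_right (by norm_num) hj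
    obtain ⟨m, hm1, hm2, hb, -⟩ := closed_block h2 hc
    -- `2^s ≤ m < 2^(s+1)`
    have hs1 : 2 ^ (Nat.log 2 m) ≤ m := Nat.pow_log_le_self 2 (by omega)
    have hs2 : m < 2 ^ (Nat.log 2 m + 1) := Nat.lt_pow_succ_log_self (by norm_num) m
    have hd : 2 ^ (Nat.log 2 m + 1) ∣ 2 ^ j - m := by
      apply pw_return _ i
      intro t ht
      exact hb t (by omega)
    have hj' : Nat.log 2 m + 1 ≤ j := by
      by_contra hcon
      push Not at hcon
      have : 2 ^ j ≤ 2 ^ (Nat.log 2 m) := Nat.pow_le_pow_right (by norm_num) (by omega)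
      omega
    have hd2 : 2 ^ (Nat.log 2 m + 1) ∣ 2 ^ j := pow_dvd_pow 2 hj'
    have hd3 : 2 ^ (Nat.log 2 m + 1) ∣ m := by
      have := Nat.dvd_sub hd2 hd
      have e : 2 ^ j - (2 ^ j - m) = m := by omega
      rwa [e] at this
    have := Nat.le_of_dvd hm1 hd3
    omega
  simp [closedComplexity, this]



/-! ### The case `k ≥ 1`: words with long runs of `k` letters

The word is `0 · B₀ · B₁ · B₂ ⋯` with `B_j = 1 · 2^{M^j} · 3^{M^j} ⋯ (k+1)^{M^j}` (exponents
are repetition counts, letters are `0, …, k+1`), where `M = 2k+4`. -/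

section Runs

variable (k : ℕ)

/-- Letter of the run number `r`. -/
def rl (r : ℕ) : Fin (k + 2) :=
  if r = 0 then 0 else ⟨(r - 1) % (k + 1) + 1, by
    have := Nat.mod_lt (r - 1) (show 0 < k + 1 by omega); omega⟩

/-- Length of the run number `r`. -/
def rn (r : ℕ) : ℕ :=
  if r = 0 then 1 else if (r - 1) % (k + 1) = 0 then 1 else (2 * k + 4) ^ ((r - 1) / (k + 1))

/-- The concatenation of the first `R` runs. -/
def D (R : ℕ) : List (Fin (k + 2)) :=
  (List.range R).flatMap fun r => List.replicate (rn k r) (rl k r)

/-- Start of run number `R`. -/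
def S (R : ℕ) : ℕ := (D k R).length

lemma rn_pos (r : ℕ) : 1 ≤ rn k r := by
  unfold rn
  split_ifs
  · exact le_refl _
  · exact le_refl _
  · exact Nat.one_le_pow _ _ (by omega)

lemma D_succ (R : ℕ) : D k (R + 1) = D k R ++ List.replicate (rn k R) (rl k R) := by
  simp [D, List.range_succ]

lemma S_zero : S k 0 = 0 := by simp [S, D]

lemma S_succ (R : ℕ) : S k (R + 1) = S k R + rn k R := by
  simp [S, D_succ]

lemma S_lt_succ (R : ℕ) : S k R < S k (R + 1) := by
  have := rn_pos k R
  rw [S_succ]; omega

lemma S_strictMono : StrictMono (S k) := strictMono_nat_of_lt_succ (S_lt_succ k)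

lemma le_S (R : ℕ) : R ≤ S k R := (S_strictMono k).le_apply

/-- The word. -/
def rword (n : ℕ) : Fin (k + 2) := (D k (n + 1)).getD n 0

lemma D_getD_mono {R R' n : ℕ} (h : R ≤ R') (hn : n < S k R) :
    (D k R').getD n 0 = (D k R).getD n 0 := by
  induction R', h using Nat.le_induction with
  | base => rfl
  | succ R' hR ih =>
    rw [D_succ, List.getD_append, ih]
    exact lt_of_lt_of_le hn ((S_strictMono k).monotone hR)

lemma rword_eq_getD {R n : ℕ} (hn : n < S k R) : rword k n = (D k R).getD n 0 := by
  unfold rword
  have h1 : n < S k (n + 1) := lt_of_lt_of_le (Nat.lt_succ_self n) (le_S k (n + 1))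
  rcases le_total R (n + 1) with h | h
  · rw [D_getD_mono k h hn]
  · rw [D_getD_mono k h h1]

lemma rword_run {r n : ℕ} (h1 : S k r ≤ n) (h2 : n < S k (r + 1)) : rword k n = rl k r := by
  rw [rword_eq_getD k h2, D_succ]
  rw [List.getD_append_right _ _ _ _ h1]
  have h3 : n - (D k r).length < rn k r := by
    have := S_succ k r
    unfold S at *
    omega
  rw [List.getD_eq_getElem _ _ (by simpa using h3)]
  simp

lemma exists_run (n : ℕ) : ∃ r, S k r ≤ n ∧ n < S k (r + 1) := by
  have hex : ∃ r, n < S k (r + 1) := ⟨n, lt_of_lt_of_le (Nat.lt_succ_self n) (le_S k (n + 1))⟩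
  classical
  refine ⟨Nat.find hex, ?_, Nat.find_spec hex⟩
  rcases Nat.eq_zero_or_pos (Nat.find hex) with h | h
  · rw [h, S_zero]; exact Nat.zero_le _
  · have := Nat.find_min hex (Nat.sub_lt h one_pos)
    have e : Nat.find hex - 1 + 1 = Nat.find hex := by omega
    rw [e] at this
    omega

lemma D_eq_block (R : ℕ) : D k R = block (rword k) 0 (S k R) := by
  apply List.ext_getElem
  · simp [S]
  · intro t h1 h2
    rw [block_getElem, zero_add, rword_eq_getD k (R := R) h1, List.getD_eq_getElem _ _ h1]

/-! The morphism. -/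

/-- The morphism `0 ↦ 0 1 2 ⋯ (k+1)`, `1 ↦ 1`, `u ↦ u^M` for `u ≥ 2`. -/
def rφ (u : Fin (k + 2)) : List (Fin (k + 2)) :=
  if u = 0 then List.finRange (k + 2) else List.replicate (if u = 1 then 1 else 2 * k + 4) u

lemma rl_ne_zero {r : ℕ} (h : 1 ≤ r) : rl k r ≠ 0 := by
  unfold rl
  rw [if_neg (by omega)]
  intro hh
  have := congrArg Fin.val hh
  simp at this

lemma mor_append {A : Type*} (φ : A → List A) (u v : List A) : mor φ (u ++ v) = mor φ u ++ mor φ v := by
  simp [mor]

lemma mor_replicate {u : Fin (k + 2)} (hu : u ≠ 0) (n : ℕ) :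
    mor (rφ k) (List.replicate n u) = List.replicate (n * (if u = 1 then 1 else 2 * k + 4)) u := by
  induction n with
  | zero => simp [mor]
  | succ n ih =>
    have e : (n + 1) * (if u = 1 then 1 else 2 * k + 4) =
        n * (if u = 1 then 1 else 2 * k + 4) + (if u = 1 then 1 else 2 * k + 4) := by ring
    rw [List.replicate_succ', mor_append, ih, e, List.replicate_add]
    simp [mor, rφ, hu]

lemma rl_add (r : ℕ) (h : 1 ≤ r) : rl k (r + (k + 1)) = rl k r := by
  unfold rl
  rw [if_neg (by omega), if_neg (by omega)]
  have : r + (k + 1) - 1 = r - 1 + (k + 1) := by omega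
  simp [this]

lemma rn_add (r : ℕ) (h : 1 ≤ r) :
    rn k (r + (k + 1)) = rn k r * (if rl k r = 1 then 1 else 2 * k + 4) := by
  have e : r + (k + 1) - 1 = r - 1 + (k + 1) := by omega
  have hl : rl k r = 1 ↔ (r - 1) % (k + 1) = 0 := by
    unfold rl
    rw [if_neg (by omega), Fin.ext_iff]
    simp
  unfold rn
  rw [if_neg (by omega), if_neg (by omega : ¬ r = 0), e]
  by_cases h0 : (r - 1) % (k + 1) = 0
  · simp [h0, hl]
  · have h1 : rl k r ≠ 1 := fun hh => h0 (hl.mp hh)
    have h2 : (r - 1 + (k + 1)) / (k + 1) = (r - 1) / (k + 1) + 1 := by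
      rw [Nat.add_div_right _ (Nat.succ_pos k)]
    simp [h0, h1, h2, pow_succ]

lemma D_first : D k (k + 2) = List.finRange (k + 2) := by
  have h1 : ∀ r, r < k + 2 → rn k r = 1 ∧ (rl k r : ℕ) = r := by
    intro r hr'
    constructor
    · unfold rn
      split_ifs with h0 h1
      · rfl
      · rfl
      · have : (r - 1) / (k + 1) = 0 := Nat.div_eq_of_lt (by omega)
        rw [this, pow_zero]
    · unfold rl
      split_ifs with h0
      · subst h0; rfl
      · have h2 : (r - 1) % (k + 1) = r - 1 := Nat.mod_eq_of_lt (by omega)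
        simp only [h2]
        omega
  have h2 : ∀ R, (hR : R ≤ k + 2) → D k R = (List.range R).attach.map
      (fun r => (⟨r.1, by have := List.mem_range.mp r.2; omega⟩ : Fin (k + 2))) := by
    intro R hR
    induction R with
    | zero => simp [D]
    | succ R ih =>
      rw [D_succ, ih (by omega)]
      obtain ⟨e1, e2⟩ := h1 R (by omega)
      rw [e1]
      apply List.ext_getElem
      · simp
      · intro t h3 h4
        simp at h3
        rcases Nat.lt_or_ge t R with h | h
        · rw [List.getElem_append_left (by simpa using h)]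
          simp
        · have : t = R := by omega
          subst this
          rw [List.getElem_append_right (by simp)]
          simp [Fin.ext_iff, e2]
  rw [h2 _ le_rfl]
  apply List.ext_getElem
  · simp
  · intro t h3 h4
    simp

lemma mor_D (R : ℕ) : mor (rφ k) (D k (R + 1)) = D k (R + 1 + (k + 1)) := by
  induction R with
  | zero =>
    have h1 : D k (0 + 1) = [0] := by simp [D, rn, rl]
    have h2 : 0 + 1 + (k + 1) = k + 2 := by omega
    rw [h1, h2, D_first]
    simp [mor, rφ]
  | succ R ih =>
    rw [D_succ k (R + 1), mor_append, ih, mor_replicate k (rl_ne_zero k (by omega))]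
    have e : R + 1 + 1 + (k + 1) = (R + 1 + (k + 1)) + 1 := by omega
    rw [e, D_succ, rl_add k _ (by omega), rn_add k _ (by omega)]

lemma iter_D (m : ℕ) : (mor (rφ k))^[m] [0] = D k ((k + 1) * m + 1) := by
  induction m with
  | zero => simp [D, rn, rl]
  | succ m ih =>
    rw [Function.iterate_succ_apply', ih, mor_D]
    congr 1
    ring

lemma rword_pureMorphic : IsPureMorphic (rword k) := by
  refine ⟨rφ k, 0, ?_, ?_, ?_⟩
  · have : rφ k 0 = List.finRange (k + 2) := by simp [rφ]
    rw [this, List.finRange_succ]
    exact ⟨_, rfl⟩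
  · refine tendsto_atTop_mono ?_ tendsto_id
    intro m
    rw [iter_D]
    have h1 := le_S k ((k + 1) * m + 1)
    unfold S at h1
    have h2 : m ≤ (k + 1) * m := Nat.le_mul_of_pos_left m (Nat.succ_pos k)
    simp only [id]
    omega
  · intro m
    rw [iter_D]
    exact D_eq_block k _


/-! Structure of the runs. -/

lemma rl_val {r : ℕ} (h : 1 ≤ r) : (rl k r : ℕ) = (r - 1) % (k + 1) + 1 := by
  unfold rl
  rw [if_neg (by omega)]

lemma rl_succ_ne (hk : 1 ≤ k) (r : ℕ) : rl k r ≠ rl k (r + 1) := by
  intro h
  have h1 := congrArg Fin.val h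
  rcases Nat.eq_zero_or_pos r with h0 | h0
  · subst h0
    rw [rl_val k (le_refl 1)] at h1
    simp [rl] at h1
  · rw [rl_val k h0, rl_val k (by omega)] at h1
    have e : r + 1 - 1 = (r - 1) + 1 := by omega
    rw [e, Nat.add_mod (r - 1) 1] at h1
    have h2 : 1 % (k + 1) = 1 := Nat.mod_eq_of_lt (by omega)
    rw [h2] at h1
    have h3 := Nat.mod_lt (r - 1) (show 0 < k + 1 by omega)
    rcases Nat.lt_or_ge ((r - 1) % (k + 1) + 1) (k + 1) with h4 | h4
    · rw [Nat.mod_eq_of_lt h4] at h1; omega
    · have h5 : (r - 1) % (k + 1) + 1 = k + 1 := by omega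
      rw [h5, Nat.mod_self] at h1
      omega

/-- After the letter `1` comes the letter `2`. -/
lemma rl_after_one (hk : 1 ≤ k) {r : ℕ} (h : 1 ≤ r) (h1 : (rl k r : ℕ) = 1) :
    (rl k (r + 1) : ℕ) = 2 := by
  rw [rl_val k h] at h1
  rw [rl_val k (by omega)]
  have e : r + 1 - 1 = (r - 1) + 1 := by omega
  have h0 : (r - 1) % (k + 1) = 0 := by omega
  rw [e, Nat.add_mod, h0]
  have h2 : 1 % (k + 1) = 1 := Nat.mod_eq_of_lt (by omega)
  simp [h2]

lemma rn_one {r : ℕ} (h : 1 ≤ r) (h1 : (rl k r : ℕ) = 1) : rn k r = 1 := by
  rw [rl_val k h] at h1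
  unfold rn
  rw [if_neg (by omega), if_pos (by omega)]

lemma rn_big {r j : ℕ} (h : (k + 1) * j + 1 ≤ r) (h1 : (rl k r : ℕ) ≠ 1) :
    (2 * k + 4) ^ j ≤ rn k r := by
  rw [rl_val k (by omega)] at h1
  unfold rn
  rw [if_neg (by omega), if_neg (by omega)]
  apply Nat.pow_le_pow_right (by omega)
  rw [Nat.le_div_iff_mul_le (by omega)]
  have : j * (k + 1) = (k + 1) * j := by ring
  omega

lemma rn_small {r j : ℕ} (h : r < (k + 1) * (j + 1) + 1) : rn k r ≤ (2 * k + 4) ^ j := by
  unfold rn
  split_ifs with h0 h1
  · exact Nat.one_le_pow _ _ (by omega)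
  · exact Nat.one_le_pow _ _ (by omega)
  · apply Nat.pow_le_pow_right (by omega)
    have : (r - 1) / (k + 1) < j + 1 := by
      rw [Nat.div_lt_iff_lt_mul (by omega)]
      have : (j + 1) * (k + 1) = (k + 1) * (j + 1) := by ring
      omega
    omega

/-- The block `B_j` has length `1 + k M^j`. -/
lemma S_block_aux (j i : ℕ) (hi : i ≤ k) :
    S k ((k + 1) * j + 1 + 1 + i) = S k ((k + 1) * j + 1) + 1 + i * (2 * k + 4) ^ j := by
  induction i with
  | zero =>
    rw [add_zero, S_succ]
    have : rn k ((k + 1) * j + 1) = 1 := by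
      apply rn_one k (by omega)
      rw [rl_val k (by omega)]
      simp
    rw [this]; simp
  | succ i ih =>
    have e : (k + 1) * j + 1 + 1 + (i + 1) = ((k + 1) * j + 1 + 1 + i) + 1 := by ring
    rw [e, S_succ, ih (by omega)]
    have h1 : (k + 1) * j + 1 + 1 + i - 1 = i + 1 + (k + 1) * j := by omega
    have hm : (i + 1 + (k + 1) * j) % (k + 1) = i + 1 := by
      rw [Nat.add_mul_mod_self_left]
      exact Nat.mod_eq_of_lt (by omega)
    have hd : (i + 1 + (k + 1) * j) / (k + 1) = j := by
      rw [Nat.add_mul_div_left _ _ (by omega), Nat.div_eq_of_lt (by omega)]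
      simp
    have : rn k ((k + 1) * j + 1 + 1 + i) = (2 * k + 4) ^ j := by
      unfold rn
      rw [if_neg (by omega), h1, hm, if_neg (by omega), hd]
    rw [this]; ring

lemma S_block (j : ℕ) :
    S k ((k + 1) * (j + 1) + 1) = S k ((k + 1) * j + 1) + 1 + k * (2 * k + 4) ^ j := by
  rw [← S_block_aux k j k le_rfl]
  congr 1
  ring

lemma S_ineq (hk : 1 ≤ k) (j : ℕ) :
    S k ((k + 1) * (j + 1) + 1) + (2 * k + 4) ^ j + 1 < (2 * k + 4) ^ (j + 1) := by
  induction j with
  | zero =>
    rw [S_block]
    have : S k ((k + 1) * 0 + 1) = 1 := by simp [S, D, rn]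
    rw [this]
    simp
    omega
  | succ j ih =>
    rw [S_block]
    have h1 : (2 * k + 4) ^ (j + 1 + 1) = (2 * k + 4) * (2 * k + 4) ^ (j + 1) := by ring
    have h2 : 1 ≤ (2 * k + 4) ^ (j + 1) := Nat.one_le_pow _ _ (by omega)
    rw [h1]
    generalize (2 * k + 4) ^ (j + 1) = X at *
    have h3 : (2 * k + 4) * X = k * X + k * X + 4 * X := by ring
    have h4 : 0 ≤ k * X := Nat.zero_le _
    omega

/-- Among `M^j + 1` consecutive letters starting at or before the start of the block `B_{j+1}`
there is one different from `2`. -/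
lemma short_runs (hk : 1 ≤ k) (j i : ℕ) (hi : i ≤ S k ((k + 1) * (j + 1) + 1)) :
    ∃ t ≤ (2 * k + 4) ^ j, (rword k (i + t) : ℕ) ≠ 2 := by
  obtain ⟨r, h1, h2⟩ := exists_run k i
  by_cases hl : (rl k r : ℕ) = 2
  · have hr : r < (k + 1) * (j + 1) + 1 := by
      by_contra hcon
      push Not at hcon
      have h3 := (S_strictMono k).monotone hcon
      have h4 : i = S k ((k + 1) * (j + 1) + 1) := by omega
      have h5 : r = (k + 1) * (j + 1) + 1 := by
        apply (S_strictMono k).injective
        omega
      rw [h5, rl_val k (by omega)] at hl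
      simp at hl
    have h3 := rn_small k hr
    have h4 := S_succ k r
    refine ⟨S k (r + 1) - i, by omega, ?_⟩
    have e : i + (S k (r + 1) - i) = S k (r + 1) := by omega
    rw [e, rword_run k le_rfl (S_lt_succ k (r + 1))]
    intro h5
    apply rl_succ_ne k hk r
    apply Fin.ext
    omega
  · refine ⟨0, Nat.zero_le _, ?_⟩
    rw [add_zero, rword_run k h1 h2]
    exact hl

/-- The closed factors of length `M^(j+1)` are powers of a single letter `u ≥ 2`. -/
lemma main_structure (hk : 1 ≤ k) (j i : ℕ)
    (hc : IsClosedWord (block (rword k) i ((2 * k + 4) ^ (j + 1)))) :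
    ∃ u : Fin (k + 2), 2 ≤ (u : ℕ) ∧
      block (rword k) i ((2 * k + 4) ^ (j + 1)) = List.replicate ((2 * k + 4) ^ (j + 1)) u := by
  set N := (2 * k + 4) ^ (j + 1) with hN
  set R0 := (k + 1) * (j + 1) + 1 with hR0
  have hNeven : N % 2 = 0 := by
    have : 2 ∣ N := by
      rw [hN]
      exact dvd_pow ⟨k + 2, by ring⟩ (by omega)
    omega
  have hin := S_ineq k hk j
  rw [← hN, ← hR0] at hin
  have hMj : 1 ≤ (2 * k + 4) ^ j := Nat.one_le_pow _ _ (by omega)
  have hN2 : 2 ≤ N := by omega
  obtain ⟨m, hm1, hm2, hb, hr⟩ := closed_block hN2 hc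
  have hR0v : (rl k R0 : ℕ) = 1 := by
    rw [rl_val k (by omega)]
    simp [hR0]
  rcases Nat.lt_or_ge i (S k R0) with hi | hi
  · -- the factor starts early
    exfalso
    have hSR1 : S k (R0 + 1) = S k R0 + 1 := by
      rw [S_succ, rn_one k (by omega) hR0v]
    have hlong : ∀ n, S k R0 + 1 ≤ n → n < S k R0 + 1 + N → (rword k n : ℕ) = 2 := by
      intro n h1 h2
      have h3 : N ≤ rn k (R0 + 1) := by
        apply rn_big k (by omega)
        rw [rl_after_one k hk (by omega) hR0v]
        norm_num
      rw [rword_run k (r := R0 + 1) (by omega) (by rw [S_succ]; omega)]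
      exact rl_after_one k hk (by omega) hR0v
    -- `T` is the number of trailing letters `2`
    obtain ⟨T, hT⟩ : ∃ T, i + N = S k R0 + 1 + T := ⟨i + N - (S k R0 + 1), by omega⟩
    rcases Nat.lt_or_ge T m with hTm | hTm
    · obtain ⟨t, ht1, ht2⟩ := short_runs k hk j (i + (m - T)) (by rw [← hR0]; omega)
      apply ht2
      have h1 : i + (m - T) + t = i + (m - T + t) := by omega
      rw [h1, hb (m - T + t) (by omega)]
      apply hlong
      · omega
      · omega
    · have hall : ∀ t < m, (rword k (i + t) : ℕ) = 2 := by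
        intro t ht
        rw [hb t ht]
        apply hlong <;> omega
      rcases Nat.lt_or_ge m T with hmT | hmT
      · obtain ⟨t, ht1, ht2⟩ := hr (N - m - 1) (by omega) (by omega)
        apply ht2
        apply Fin.ext
        rw [hall t ht1]
        apply hlong <;> omega
      · obtain ⟨t, ht1, ht2⟩ := short_runs k hk j i (by rw [← hR0]; omega)
        exact ht2 (hall t (by omega))
  · -- the factor starts late
    obtain ⟨r, h1, h2⟩ := exists_run k i
    have hrR : R0 ≤ r := by
      by_contra hcon
      push Not at hcon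
      have := (S_strictMono k).monotone (show r + 1 ≤ R0 by omega)
      omega
    have hr1 : 1 ≤ r := by omega
    by_cases hl : (rl k r : ℕ) = 1
    · -- starts with the letter `1`
      exfalso
      have h3 := rn_one k hr1 hl
      have h4 := S_succ k r
      have h5 : i = S k r := by omega
      have h6 := rl_after_one k hk hr1 hl
      have h7 : N ≤ rn k (r + 1) := rn_big k (by omega) (by omega)
      have h8 := S_succ k (r + 1)
      have h9 := hb 0 (by omega)
      rw [rword_run k (n := i + 0) (r := r) (by omega) (by omega),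
        rword_run k (r := r + 1) (by omega) (by omega)] at h9
      have := congrArg Fin.val h9
      omega
    · obtain ⟨s, hs⟩ : ∃ s, S k (r + 1) = i + s := ⟨S k (r + 1) - i, by omega⟩
      have hpre : ∀ t < s, rword k (i + t) = rl k r := by
        intro t ht
        exact rword_run k (by omega) (by omega)
      rcases Nat.lt_or_ge s N with hsN | hsN
      · exfalso
        have hs1 : 1 ≤ s := by omega
        have hS2 := S_succ k (r + 1)
        by_cases hl' : (rl k (r + 1) : ℕ) = 1
        · -- followed by the letter `1`, then by the letter `2`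
          have g1 : rn k (r + 1) = 1 := rn_one k (by omega) hl'
          have g2 := rl_after_one k hk (show 1 ≤ r + 1 by omega) hl'
          have g3 : N ≤ rn k (r + 1 + 1) := rn_big k (by omega) (by omega)
          have hS3 := S_succ k (r + 1 + 1)
          have hmid : (rword k (i + s) : ℕ) = 1 := by
            rw [rword_run k (r := r + 1) (by omega) (by omega)]
            exact hl'
          have hpost : ∀ t, s < t → t < N → (rword k (i + t) : ℕ) = 2 := by
            intro t ht1 ht2
            rw [rword_run k (r := r + 1 + 1) (by omega) (by omega)]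
            exact g2
          rcases Nat.lt_or_ge s m with hsm | hsm
          · have := congrArg Fin.val (hb s hsm)
            rw [hmid] at this
            have e : i + (N - m) + s = i + (N - m + s) := by omega
            rw [e, hpost (N - m + s) (by omega) (by omega)] at this
            omega
          · have e1 := hb (m - 1) (by omega)
            rw [hpre (m - 1) (by omega)] at e1
            have e2 : i + (N - m) + (m - 1) = i + (N - 1) := by omega
            rw [e2] at e1
            have e3 : s ≠ N - 1 := by
              intro hh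
              rw [← hh] at e1
              have := congrArg Fin.val e1
              omega
            have e4 : (rl k r : ℕ) = 2 := by
              rw [e1]
              exact hpost (N - 1) (by omega) (by omega)
            have e5 : s < N - m := by
              by_contra hcon
              push Not at hcon
              have h9 := hb (s - (N - m)) (by omega)
              rw [hpre _ (by omega)] at h9
              have e6 : i + (N - m) + (s - (N - m)) = i + s := by omega
              rw [e6] at h9
              have := congrArg Fin.val h9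
              omega
            rcases Nat.lt_or_ge m s with hms | hms
            · obtain ⟨t, ht1, ht2⟩ := hr 1 (by omega) (by omega)
              apply ht2
              have e6 : i + 1 + t = i + (1 + t) := by omega
              rw [e6, hpre (1 + t) (by omega), hpre t (by omega)]
            · have hms' : m = s := by omega
              obtain ⟨t, ht1, ht2⟩ := hr (N - m - 1) (by omega) (by omega)
              apply ht2
              apply Fin.ext
              rw [hpre t (by omega), e4]
              have e6 : i + (N - m - 1) + t = i + (N - m - 1 + t) := by omega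
              rw [e6]
              exact hpost _ (by omega) (by omega)
        · -- followed by a long run of another letter
          have g3 : N ≤ rn k (r + 1) := rn_big k (by omega) hl'
          have hpost : ∀ t, s ≤ t → t < N → rword k (i + t) = rl k (r + 1) := by
            intro t ht1 ht2
            exact rword_run k (by omega) (by omega)
          have hne := rl_succ_ne k hk r
          have e1 := hb (m - 1) (by omega)
          have e2 : i + (N - m) + (m - 1) = i + (N - 1) := by omega
          rw [e2, hpost (N - 1) (by omega) (by omega)] at e1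
          have e3 : s ≤ m - 1 := by
            by_contra hcon
            push Not at hcon
            rw [hpre (m - 1) hcon] at e1
            exact hne e1
          have e4 := hb (s - 1) (by omega)
          rw [hpre (s - 1) (by omega)] at e4
          have e5 : i + (N - m) + (s - 1) = i + (N - m + (s - 1)) := by omega
          rw [e5, hpost _ (by omega) (by omega)] at e4
          exact hne e4
      · refine ⟨rl k r, ?_, ?_⟩
        · have := rl_val k hr1
          omega
        · apply List.ext_getElem
          · simp
          · intro t ht1 ht2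
            rw [block_getElem, List.getElem_replicate]
            simp at ht1
            exact hpre t (by omega)


lemma run_factor (u : Fin (k + 2)) (hu : 2 ≤ (u : ℕ)) (n : ℕ) :
    ∃ i, block (rword k) i n = List.replicate n u := by
  set r := (k + 1) * n + ((u : ℕ) - 1) + 1 with hr
  have hu2 := u.2
  have h1 : r - 1 = ((u : ℕ) - 1) + (k + 1) * n := by omega
  have hm : (r - 1) % (k + 1) = (u : ℕ) - 1 := by
    rw [h1, Nat.add_mul_mod_self_left]
    exact Nat.mod_eq_of_lt (by omega)
  have hd : (r - 1) / (k + 1) = n := by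
    rw [h1, Nat.add_mul_div_left _ _ (by omega), Nat.div_eq_of_lt (by omega)]
    simp
  have hl : rl k r = u := by
    apply Fin.ext
    rw [rl_val k (by omega), hm]
    omega
  have hn : rn k r = (2 * k + 4) ^ n := by
    unfold rn
    rw [if_neg (by omega), if_neg (by omega), hd]
  have hn2 : n < (2 * k + 4) ^ n := Nat.lt_pow_self (by omega)
  refine ⟨S k r, ?_⟩
  apply List.ext_getElem
  · simp
  · intro t ht1 ht2
    rw [block_getElem, List.getElem_replicate]
    simp at ht1
    have hS := S_succ k r
    rw [rword_run k (r := r) (by omega) (by omega), hl]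

lemma rword_aperiodic (hk : 1 ≤ k) : ¬ UltimatelyPeriodic (rword k) := by
  rintro ⟨p, N, hp, h⟩
  -- a long run starting late
  set r := (k + 1) * (p + N) + 1 + 1 with hr
  have hl : (rl k r : ℕ) = 2 := by
    rw [rl_val k (by omega)]
    have e : r - 1 = 1 + (k + 1) * (p + N) := by omega
    rw [e, Nat.add_mul_mod_self_left, Nat.mod_eq_of_lt (by omega)]
  have hn : (2 * k + 4) ^ (p + N) ≤ rn k r := rn_big k (by omega) (by omega)
  have hn2 : p + N < (2 * k + 4) ^ (p + N) := Nat.lt_pow_self (by omega)
  have hS := S_succ k r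
  have hSr := le_S k r
  have hrN : N ≤ r := by
    have : p + N ≤ (k + 1) * (p + N) := Nat.le_mul_of_pos_left _ (by omega)
    omega
  have h1 := h (S k (r + 1) - p) (by omega)
  have e : S k (r + 1) - p + p = S k (r + 1) := by omega
  rw [e, rword_run k (r := r + 1) le_rfl (S_lt_succ k (r + 1)),
    rword_run k (r := r) (by omega) (by omega)] at h1
  exact rl_succ_ne k hk r h1.symm

lemma closedFactors_finite {A : Type*} [Fintype A] (x : ℕ → A) (n : ℕ) :
    (closedFactors x n).Finite := by
  apply (List.finite_length_eq A n).subset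
  rintro w ⟨⟨i, rfl⟩, -⟩
  simp

/-- The words `u^n` for the `k` letters `u ≥ 2`. -/
def powers (n : ℕ) : Set (List (Fin (k + 2))) :=
  (fun u => List.replicate n u) '' {u : Fin (k + 2) | 2 ≤ (u : ℕ)}

lemma powers_ncard (n : ℕ) (hn : 1 ≤ n) : (powers k n).ncard = k := by
  unfold powers
  rw [Set.ncard_image_of_injective]
  · have : {u : Fin (k + 2) | 2 ≤ (u : ℕ)} = (fun v : Fin k => v.natAdd 2 |>.cast (by omega)) '' Set.univ := by
      ext u
      simp only [Set.mem_ofPred_eq, Set.image_univ, Set.mem_range]
      constructor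
      · intro h
        refine ⟨⟨(u : ℕ) - 2, by omega⟩, ?_⟩
        apply Fin.ext
        simp
        omega
      · rintro ⟨v, rfl⟩
        simp
    rw [this, Set.ncard_image_of_injective, Set.ncard_univ, Nat.card_eq_fintype_card,
      Fintype.card_fin]
    intro v v' h
    have := congrArg Fin.val h
    apply Fin.ext
    simpa using this
  · intro u v h
    have h1 : List.replicate n u = List.replicate n v := h
    rw [List.replicate_inj] at h1
    rcases h1.2 with h2 | h2
    · omega
    · exact h2

lemma powers_subset (n : ℕ) (hn : 2 ≤ n) : powers k n ⊆ closedFactors (rword k) n := by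
  rintro w ⟨u, hu, rfl⟩
  obtain ⟨i, hi⟩ := run_factor k u hu n
  exact ⟨⟨i, hi.symm⟩, closed_replicate u hn⟩

lemma rword_ge (n : ℕ) (hn : 2 ≤ n) : k ≤ closedComplexity (rword k) n := by
  have h := Set.ncard_le_ncard (powers_subset k n hn) (closedFactors_finite _ _)
  rw [powers_ncard k n (by omega)] at h
  exact h

lemma rword_eq (hk : 1 ≤ k) (j : ℕ) :
    closedComplexity (rword k) ((2 * k + 4) ^ (j + 1)) = k := by
  have h2 : 2 ≤ (2 * k + 4) ^ (j + 1) := by
    calc 2 ≤ 2 * k + 4 := by omega
      _ = (2 * k + 4) ^ 1 := by ring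
      _ ≤ (2 * k + 4) ^ (j + 1) := Nat.pow_le_pow_right (by omega) (by omega)
  have : closedFactors (rword k) ((2 * k + 4) ^ (j + 1)) = powers k ((2 * k + 4) ^ (j + 1)) := by
    apply Set.Subset.antisymm
    · rintro w ⟨⟨i, rfl⟩, hc⟩
      obtain ⟨u, hu, he⟩ := main_structure k hk j i hc
      exact ⟨u, hu, he.symm⟩
    · exact powers_subset k _ h2
  unfold closedComplexity
  rw [this, powers_ncard k _ (by omega)]

end Runs

lemma liminf_eq_of {u : ℕ → ℕ} {k : ℕ} (h1 : ∀ n, 2 ≤ n → k ≤ u n)
    (h2 : ∃ᶠ n in atTop, u n = k) :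
    liminf (fun n => (u n : ℕ∞)) atTop = (k : ℕ∞) := by
  apply le_antisymm
  · apply liminf_le_of_frequently_le
    · exact h2.mono fun n hn => by rw [hn]
    · isBoundedDefault
  · apply le_liminf_of_le
    · isBoundedDefault
    · filter_upwards [eventually_ge_atTop 2] with n hn
      exact_mod_cast h1 n hn

/-- For every `k` there is an aperiodic pure morphic word `x` over a finite alphabet whose closed
complexity has lower limit `k`. -/
theorem result : ∀ k : ℕ, ∃ (A : Type) (_ : Fintype A) (x : ℕ → A),
    IsPureMorphic x ∧ ¬ UltimatelyPeriodic x ∧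
      liminf (fun n => (closedComplexity x n : ℕ∞)) atTop = (k : ℕ∞) := by
  intro k
  rcases Nat.eq_zero_or_pos k with rfl | hk
  · refine ⟨Bool × Bool, inferInstance, pw, pw_pureMorphic, pw_aperiodic, ?_⟩
    apply liminf_eq_of
    · intro n _; exact Nat.zero_le _
    · rw [frequently_atTop]
      intro a
      refine ⟨2 ^ (a + 1), ?_, pw_closed_zero _ (by omega)⟩
      have : a + 1 < 2 ^ (a + 1) := Nat.lt_two_pow_self
      omega
  · refine ⟨Fin (k + 2), inferInstance, rword k, rword_pureMorphic k, rword_aperiodic k hk, ?_⟩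
    apply liminf_eq_of
    · exact rword_ge k
    · rw [frequently_atTop]
      intro a
      refine ⟨(2 * k + 4) ^ (a + 1), ?_, rword_eq k hk a⟩
      have : a + 1 < (2 * k + 4) ^ (a + 1) := Nat.lt_pow_self (by omega)
      omega

end Pool.Agent.Results.MP_c8d5ab_co.PrescribedLiminf
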